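import Pool.Agent.K1H79.Q3.StmB

/-! # Project Q3: basic facts on the data of a quadratic extension of `ℚ(ω)`

Owner helper30. -/

set_option autoImplicit false

namespace Pool.Agent.K1H30.Q3

open Finset NumberField Pool.Agent.TH847.LS Pool.Agent.K1H79.Q3
open scoped QuadraticAlgebra Classical nonZeroDivisors

/-- the element `ω` -/
def omE : E := ⟨0, 1⟩

theorem eq_om (z : E) : z = (z.re : E) + (z.im : E) * omE := by
  ext <;> simp [omE]

theorem omE_sq : omE ^ 2 + omE + 1 = 0 := by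
  rw [sq]
  ext <;> simp [omE]

theorem hom_omE (f : E →+* ℂ) : (f omE).im ≠ 0 ∧ (f omE).re = -1 / 2 ∧
    (f omE).re ^ 2 + (f omE).im ^ 2 = 1 := by
  have h : (f omE) ^ 2 + f omE + 1 = 0 := by
    rw [← map_pow, ← map_one f, ← map_add, ← map_add, omE_sq, map_zero]
  obtain ⟨c, hc⟩ : ∃ c, c = f omE := ⟨_, rfl⟩
  rw [← hc] at h ⊢
  have h1 := congrArg Complex.re h
  have h2 := congrArg Complex.im h
  simp [sq] at h1 h2
  have h3 : c.im ≠ 0 := by
    intro h0
    rw [h0] at h1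
    nlinarith [sq_nonneg (2 * c.re + 1)]
  have h4 : c.re = -1 / 2 := by
    have h5 : c.im * (2 * c.re + 1) = 0 := by linarith
    rcases mul_eq_zero.1 h5 with h6 | h6
    · exact absurd h6 h3
    · linarith
  refine ⟨h3, h4, ?_⟩
  rw [h4] at h1 ⊢
  nlinarith

/-- the absolute value of an embedding of `ℤ[ω]` -/
theorem hom_sq (f : E →+* ℂ) (z : E) : ‖f z‖ ^ 2 = nm z := by
  obtain ⟨h1, h2, h3⟩ := hom_omE f
  have hz : f z = (z.re : ℂ) + (z.im : ℂ) * f omE := by
    conv_lhs => rw [eq_om z]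
    rw [map_add, map_mul, map_intCast, map_intCast]
  have hn : ((nm z : ℕ) : ℝ) = (z.re : ℝ) ^ 2 - z.re * z.im + (z.im : ℝ) ^ 2 := by
    have := nm_cast z
    exact_mod_cast congrArg (fun t : ℤ => (t : ℝ)) this
  rw [hn, ← Complex.normSq_eq_norm_sq, Complex.normSq_apply, hz]
  simp
  rw [h2] at h3 ⊢
  nlinarith

variable {L : Type} [Field L] [NumberField L]

/-- the absolute value of `ℤ[ω]` at a place -/
theorem w_om (d : Dat L) (w : InfinitePlace L) (z : E) : w ((d.om z : 𝓞 L) : L) ^ 2 = nm z := by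
  have := hom_sq ((w.embedding.comp (algebraMap (𝓞 L) L)).comp d.om) z
  rw [← this, RingHom.comp_apply, RingHom.comp_apply, InfinitePlace.norm_embedding_eq]

theorem isComplex (d : Dat L) (w : InfinitePlace L) : w.IsComplex := by
  rw [← InfinitePlace.not_isReal_iff_isComplex]
  intro hr
  obtain ⟨h1, -⟩ := hom_omE ((w.embedding.comp (algebraMap (𝓞 L) L)).comp d.om)
  apply h1
  rw [InfinitePlace.isReal_iff] at hr
  have := RingHom.congr_fun (ComplexEmbedding.isReal_iff.1 hr) ((d.om omE : 𝓞 L) : L)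
  rw [ComplexEmbedding.conjugate_coe_eq] at this
  exact Complex.conj_eq_iff_im.1 this

theorem mult_two (d : Dat L) (w : InfinitePlace L) : w.mult = 2 :=
  InfinitePlace.mult_isComplex ⟨w, isComplex d w⟩

theorem card_two (d : Dat L) : Fintype.card (InfinitePlace L) = 2 := by
  have h1 := InfinitePlace.sum_mult_eq (K := L)
  rw [d.deg] at h1
  simp_rw [mult_two d] at h1
  rw [Finset.sum_const, Finset.card_univ, smul_eq_mul] at h1
  omega

/-- the two places -/
theorem two_places (d : Dat L) (w : InfinitePlace L) : ∃ w' : InfinitePlace L,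
    (∀ v, v = w ∨ v = w') ∧ ∀ f : InfinitePlace L → ℝ, ∏ v, f v = f w * f w' := by
  have h := card_two d
  rw [← Finset.card_univ] at h
  have h2 : (univ.erase w : Finset (InfinitePlace L)).card = 1 := by
    rw [Finset.card_erase_of_mem (mem_univ _), h]
  obtain ⟨w', hw'⟩ := Finset.card_eq_one.1 h2
  refine ⟨w', ?_, ?_⟩
  · intro v
    by_cases hv : v = w
    · exact Or.inl hv
    · right
      have : v ∈ univ.erase w := mem_erase.2 ⟨hv, mem_univ _⟩
      rw [hw'] at this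
      exact mem_singleton.1 this
  · intro f
    rw [← Finset.mul_prod_erase univ f (mem_univ w), hw', prod_singleton]

theorem norm_prod (d : Dat L) (w : InfinitePlace L) : ∃ w' : InfinitePlace L,
    (∀ v, v = w ∨ v = w') ∧
    ∀ x : L, |((Algebra.norm ℚ x : ℚ) : ℝ)| = w x ^ 2 * w' x ^ 2 := by
  obtain ⟨w', h1, h2⟩ := two_places d w
  refine ⟨w', h1, fun x => ?_⟩
  have h := InfinitePlace.prod_eq_abs_norm x
  simp_rw [mult_two d] at h
  rw [h2] at h
  rw [h]
  push_cast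
  rfl

/-- the norm of an integer as the norm of an ideal -/
theorem absNorm_span (d : Dat L) (w : InfinitePlace L) : ∃ w' : InfinitePlace L,
    (∀ v, v = w ∨ v = w') ∧
    ∀ x : 𝓞 L, (Ideal.absNorm (Ideal.span {x}) : ℝ) = w (x : L) ^ 2 * w' (x : L) ^ 2 := by
  obtain ⟨w', h1, h2⟩ := norm_prod d w
  refine ⟨w', h1, fun x => ?_⟩
  rw [← h2, Ideal.absNorm_span_singleton]
  have : Algebra.norm ℚ (x : L) = ((Algebra.norm ℤ x : ℤ) : ℚ) := by
    rw [← Algebra.coe_norm_int]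
  rw [this]
  push_cast
  rw [Nat.cast_natAbs]
  push_cast
  rfl

theorem om_inj (d : Dat L) : Function.Injective d.om := by
  rw [injective_iff_map_eq_zero]
  intro a ha
  obtain ⟨w⟩ : Nonempty (InfinitePlace L) := inferInstance
  have := w_om d w a
  rw [ha] at this
  simp at this
  exact nm_eq_zero.1 (by exact_mod_cast this.symm)

theorem om_ne (d : Dat L) {a : E} (ha : a ≠ 0) : d.om a ≠ 0 := by
  rwa [Ne, map_eq_zero_iff _ (om_inj d)]

theorem α_ne (d : Dat L) : d.α ≠ 0 := by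
  have := d.sqf
  exact this.ne_zero

theorem s_ne (d : Dat L) : d.s ≠ 0 := by
  intro h
  have h1 := d.sq
  rw [h, zero_pow two_ne_zero] at h1
  exact om_ne d (α_ne d) h1.symm

/-- the norm of an element of `ℤ[ω]` as an ideal norm -/
theorem absNorm_om (d : Dat L) (a : E) : Ideal.absNorm (Ideal.span {d.om a}) = nm a ^ 2 := by
  obtain ⟨w⟩ : Nonempty (InfinitePlace L) := inferInstance
  obtain ⟨w', -, h⟩ := absNorm_span d w
  have h1 := h (d.om a)
  rw [w_om, w_om] at h1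
  have : ((Ideal.absNorm (Ideal.span {d.om a}) : ℕ) : ℝ) = ((nm a ^ 2 : ℕ) : ℝ) := by
    rw [h1]; push_cast; ring
  exact_mod_cast this

/-- divisibility descends to `ℤ[ω]` -/
theorem dvd_of_om_dvd (d : Dat L) {a b : E} (ha : a ≠ 0) (h : d.om a ∣ d.om b) : a ∣ b := by
  obtain ⟨g, hg⟩ : ∃ g, g = EuclideanDomain.gcd a b := ⟨_, rfl⟩
  obtain ⟨a', ha'⟩ : g ∣ a := hg ▸ EuclideanDomain.gcd_dvd_left a b
  obtain ⟨b', hb'⟩ : g ∣ b := hg ▸ EuclideanDomain.gcd_dvd_right a b
  have hg0 : g ≠ 0 := by rintro rfl; simp at ha'; exact ha ha'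
  have hbz := EuclideanDomain.gcd_eq_gcd_ab a b
  rw [← hg] at hbz
  obtain ⟨x, hx⟩ : ∃ x, x = EuclideanDomain.gcdA a b := ⟨_, rfl⟩
  obtain ⟨y, hy⟩ : ∃ y, y = EuclideanDomain.gcdB a b := ⟨_, rfl⟩
  rw [← hx, ← hy] at hbz
  have h1 : 1 = a' * x + b' * y := by
    apply mul_left_cancel₀ hg0
    rw [mul_one]
    conv_lhs => rw [hbz, ha', hb']
    ring
  have h2 : d.om a' ∣ d.om b' := by
    rw [ha', hb', map_mul, map_mul] at h
    exact (mul_dvd_mul_iff_left (om_ne d hg0)).1 h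
  have h3 : d.om a' ∣ 1 := by
    have : (1 : 𝓞 L) = d.om a' * d.om x + d.om b' * d.om y := by
      rw [← map_mul, ← map_mul, ← map_add, ← h1, map_one]
    rw [this]
    exact dvd_add (dvd_mul_right _ _) (h2.mul_right _)
  have h4 : Ideal.span {d.om a'} = ⊤ := by
    rw [Ideal.span_singleton_eq_top]
    exact isUnit_of_dvd_one h3
  have h5 := absNorm_om d a'
  rw [h4, Ideal.absNorm_top] at h5
  have h6 : nm a' = 1 := by
    have : nm a' ∣ 1 := by rw [h5]; exact dvd_pow_self _ two_ne_zero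
    exact Nat.dvd_one.1 this
  have h7 : IsUnit a' := isUnit_iff'.2 h6
  rw [ha', hb']
  exact mul_dvd_mul_left g (h7.dvd)

theorem sg_coe (d : Dat L) (x : 𝓞 L) : ((d.sg x : 𝓞 L) : L) = d.σ (x : L) := rfl

theorem sg_om (d : Dat L) (z : E) : d.sg (d.om z) = d.om z := by
  apply RingOfIntegers.ext
  rw [sg_coe, d.σo]

theorem sg_s (d : Dat L) : d.sg d.s = - d.s := by
  apply RingOfIntegers.ext
  rw [sg_coe, d.σs]
  simp

theorem sg_sg (d : Dat L) (x : 𝓞 L) : d.sg (d.sg x) = x := by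
  apply RingOfIntegers.ext
  rw [sg_coe, sg_coe, d.σσ]

theorem gen' (d : Dat L) (x : 𝓞 L) : ∃ u v w : E, w ≠ 0 ∧ d.om w * x = d.om u + d.om v * d.s := by
  obtain ⟨u, v, w, h0, h⟩ := d.gen x
  refine ⟨u, v, w, h0, ?_⟩
  apply RingOfIntegers.ext
  rw [← h]
  rfl

/-- the integers fixed by the conjugation -/
theorem fixed (d : Dat L) (x : 𝓞 L) (hx : d.sg x = x) : ∃ a : E, x = d.om a := by
  obtain ⟨u, v, w, h0, h⟩ := gen' d x
  have h1 := congrArg d.sg h
  rw [map_mul, map_add, map_mul, sg_om, sg_om, sg_om, sg_s, hx, h] at h1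
  have h2 : 2 * (d.om v * d.s) = 0 := by linear_combination h1
  have h3 : d.om v * d.s = 0 := by
    rcases mul_eq_zero.1 h2 with h4 | h4
    · exact absurd h4 two_ne_zero
    · exact h4
  rw [h3, add_zero] at h
  obtain ⟨a, ha⟩ := dvd_of_om_dvd d h0 ⟨x, h.symm⟩
  refine ⟨a, ?_⟩
  rw [ha, map_mul] at h
  exact mul_left_cancel₀ (om_ne d h0) h

/-- elements of the field fixed by the conjugation -/
theorem antifixed (d : Dat L) (x : 𝓞 L) (hx : d.sg x = -x) : ∃ a : E, x = d.om a * d.s := by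
  obtain ⟨u, v, w, h0, h⟩ := gen' d x
  have h1 := congrArg d.sg h
  rw [map_mul, map_add, map_mul, sg_om, sg_om, sg_om, sg_s, hx] at h1
  have h2 : 2 * d.om u = 0 := by linear_combination -h - h1
  have h3 : d.om u = 0 := by
    rcases mul_eq_zero.1 h2 with h4 | h4
    · exact absurd h4 two_ne_zero
    · exact h4
  rw [h3, zero_add] at h
  have hs := d.sq
  obtain ⟨y0, hy0⟩ := fixed d (x * x) (by rw [map_mul, hx]; ring)
  have h4 : w ^ 2 * y0 = v ^ 2 * d.α := by
    apply om_inj d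
    rw [map_mul, map_mul, map_pow, map_pow, ← hs, ← hy0]
    linear_combination (d.om w * x + d.om v * d.s) * h
  -- `w ∣ v`
  have h5 : w ∣ v := by
    obtain ⟨g, hg⟩ : ∃ g, g = EuclideanDomain.gcd w v := ⟨_, rfl⟩
    obtain ⟨w', hw'⟩ : g ∣ w := hg ▸ EuclideanDomain.gcd_dvd_left w v
    obtain ⟨v', hv'⟩ : g ∣ v := hg ▸ EuclideanDomain.gcd_dvd_right w v
    have hg0 : g ≠ 0 := by rintro rfl; simp at hw'; exact h0 hw'
    have hbz := EuclideanDomain.gcd_eq_gcd_ab w v
    rw [← hg] at hbz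
    obtain ⟨x, hx⟩ : ∃ x, x = EuclideanDomain.gcdA w v := ⟨_, rfl⟩
    obtain ⟨y, hy⟩ : ∃ y, y = EuclideanDomain.gcdB w v := ⟨_, rfl⟩
    rw [← hx, ← hy] at hbz
    have h1 : x * w' + y * v' = 1 := by
      apply mul_left_cancel₀ hg0
      rw [mul_one]
      conv_rhs => rw [hbz, hw', hv']
      ring
    have hc : IsCoprime w' v' := ⟨x, y, h1⟩
    have h6 : w' * w' ∣ v' ^ 2 * d.α := by
      refine ⟨y0, ?_⟩
      apply mul_left_cancel₀ (pow_ne_zero 2 hg0)
      rw [hw', hv'] at h4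
      linear_combination -h4
    have h7 : w' * w' ∣ d.α := by
      have : IsCoprime (w' * w') (v' ^ 2) := (hc.mul_left hc).pow_right
      exact this.dvd_of_dvd_mul_left h6
    have h8 := d.sqf w' h7
    rw [hw', hv']
    exact mul_dvd_mul_left g h8.dvd
  obtain ⟨a, ha⟩ := h5
  refine ⟨a, ?_⟩
  rw [ha, map_mul] at h
  apply mul_left_cancel₀ (om_ne d h0)
  rw [h]
  ring

/-- the conjugation permutes the places -/
theorem w_sg (d : Dat L) (w : InfinitePlace L) : ∃ w' : InfinitePlace L, ∀ x : 𝓞 L,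
    w ((d.sg x : 𝓞 L) : L) = w' (x : L) :=
  ⟨w.comap (d.σ : L →+* L), fun x => by rw [sg_coe, InfinitePlace.comap_apply]; rfl⟩

end Pool.Agent.K1H30.Q3
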