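import Pool.Agent.K1H30.Q3.TBb

/-! # Project Q3, piece Q18: few ideals in a cell

Owner helper30. -/

set_option autoImplicit false

namespace Pool.Agent.K1H30.Q3

open Finset NumberField Pool.Agent.TH847.LS Pool.Agent.K1H79.Q3
open scoped QuadraticAlgebra Classical nonZeroDivisors

theorem numeric {m n q X K κ s : ℝ} (hn : 0 < n) (hq : 0 < q) (hX : 0 < X) (hK : 0 < K)
    (hκ : 0 < κ) (hs : 0 < s) (h1 : n ≤ m) (h2 : m ≤ 3 * q * n) (h3 : q ^ 4 ≤ κ * s) :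
    (1 + 12 * ((2 * m * (K * (n * X))) ^ 2 / (n ^ 4 * s))) *
      √(1 + (2 * (K * (n * X)) / m) ^ 2) ≤
    (1 + 432 * K ^ 2 * κ + 2 * K + 288 * K ^ 3 * κ) * (1 + X + X ^ 3 / q ^ 3) := by
  have hm : 0 < m := hn.trans_le h1
  obtain ⟨b, hb⟩ : ∃ b, b = 2 * (K * (n * X)) / m := ⟨_, rfl⟩
  obtain ⟨a, ha⟩ : ∃ a, a = (2 * m * (K * (n * X))) ^ 2 / (n ^ 4 * s) := ⟨_, rfl⟩
  have hb0 : 0 ≤ b := by rw [hb]; positivity
  have ha0 : 0 ≤ a := by rw [ha]; positivity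
  rw [← ha, ← hb]
  have e1 : √(1 + b ^ 2) ≤ 1 + b := by
    rw [Real.sqrt_le_left (by linarith)]
    nlinarith
  have e2 : b ≤ 2 * K * X := by
    rw [hb, div_le_iff₀ hm]
    calc 2 * (K * (n * X)) = 2 * K * X * n := by ring
      _ ≤ 2 * K * X * m := by gcongr
  have e3 : a ≤ 36 * K ^ 2 * κ * (X ^ 2 / q ^ 2) := by
    rw [ha, div_le_iff₀ (by positivity)]
    have e4 : (2 * m * (K * (n * X))) ^ 2 * q ^ 4 ≤ 36 * K ^ 2 * X ^ 2 * n ^ 4 * q ^ 2 * (κ * s) := by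
      calc (2 * m * (K * (n * X))) ^ 2 * q ^ 4 ≤
            (2 * (3 * q * n) * (K * (n * X))) ^ 2 * (κ * s) := by gcongr
        _ = _ := by ring
    have e5 : (2 * m * (K * (n * X))) ^ 2 ≤ 36 * K ^ 2 * X ^ 2 * n ^ 4 * q ^ 2 * (κ * s) / q ^ 4 := by
      rw [le_div_iff₀ (by positivity)]; exact e4
    refine e5.trans (le_of_eq ?_)
    field_simp
  have e6 : a * b ≤ 24 * K ^ 3 * κ * (X ^ 3 / q ^ 3) := by
    have e7 : a * b = 8 * K ^ 3 * X ^ 3 * m / (n * s) := by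
      rw [ha, hb]; field_simp; ring
    rw [e7, div_le_iff₀ (by positivity)]
    have e8 : 8 * K ^ 3 * X ^ 3 * m * q ^ 4 ≤ 24 * K ^ 3 * X ^ 3 * q * n * (κ * s) := by
      calc 8 * K ^ 3 * X ^ 3 * m * q ^ 4 ≤ 8 * K ^ 3 * X ^ 3 * (3 * q * n) * (κ * s) := by gcongr
        _ = _ := by ring
    have e9 : 8 * K ^ 3 * X ^ 3 * m ≤ 24 * K ^ 3 * X ^ 3 * q * n * (κ * s) / q ^ 4 := by
      rw [le_div_iff₀ (by positivity)]; exact e8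
    refine e9.trans (le_of_eq ?_)
    field_simp
  have e10 : X ^ 2 / q ^ 2 ≤ 1 + X ^ 3 / q ^ 3 := by
    rw [← div_pow, ← div_pow]
    have h0 : 0 < X / q := by positivity
    rcases le_total (X / q) 1 with h | h
    · have : (X / q) ^ 2 ≤ 1 := pow_le_one₀ h0.le h
      have : 0 < (X / q) ^ 3 := by positivity
      linarith
    · have : (X / q) ^ 2 ≤ (X / q) ^ 3 := pow_le_pow_right₀ h (by norm_num)
      linarith
  calc (1 + 12 * a) * √(1 + b ^ 2) ≤ (1 + 12 * a) * (1 + b) := by gcongr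
    _ = 1 + 12 * a + b + 12 * (a * b) := by ring
    _ ≤ 1 + 12 * (36 * K ^ 2 * κ * (1 + X ^ 3 / q ^ 3)) + 2 * K * X +
        12 * (24 * K ^ 3 * κ * (X ^ 3 / q ^ 3)) := by
        gcongr
        exact e3.trans (by gcongr)
    _ ≤ _ := by
        have h4 : 0 < X ^ 3 / q ^ 3 := by positivity
        have h5 : 0 < K ^ 2 * κ := by positivity
        have h6 : 0 < K ^ 3 * κ := by positivity
        obtain ⟨y, hy⟩ : ∃ y, y = X ^ 3 / q ^ 3 := ⟨_, rfl⟩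
        rw [← hy] at h4 ⊢
        have : 0 ≤ X + y + 432 * K ^ 2 * κ * X + 2 * K * (1 + y) + 288 * K ^ 3 * κ * (1 + X) := by
          positivity
        linarith

variable {L : Type} [Field L] [NumberField L]

theorem cj_cj (d : Dat L) (𝔞 : Ideal (𝓞 L)) : cj d (cj d 𝔞) = 𝔞 := by
  unfold cj
  rw [Ideal.map_map]
  have : ((d.sg : 𝓞 L →+* 𝓞 L).comp (d.sg : 𝓞 L →+* 𝓞 L)) = RingHom.id _ := by
    ext x
    simp [sg_sg]
  rw [this, Ideal.map_id]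

theorem cj_span (d : Dat L) (x : 𝓞 L) : cj d (Ideal.span {x}) = Ideal.span {d.sg x} := by
  unfold cj
  rw [Ideal.map_span, Set.image_singleton]
  rfl

theorem cj_mul (d : Dat L) (𝔞 𝔟 : Ideal (𝓞 L)) : cj d (𝔞 * 𝔟) = cj d 𝔞 * cj d 𝔟 := Ideal.map_mul _ _ _

theorem cj_pow (d : Dat L) (𝔞 : Ideal (𝓞 L)) (k : ℕ) : cj d (𝔞 ^ k) = cj d 𝔞 ^ k := Ideal.map_pow _ _ _

theorem nm_cube (a : E) : nm (a ^ 3) = nm a ^ 3 := by
  rw [pow_succ, pow_succ, pow_one, nm_mul, nm_mul, pow_succ, pow_succ, pow_one]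

theorem absNorm_cj (d : Dat L) {𝔞 : Ideal (𝓞 L)} (ha : 𝔞 ≠ ⊥) {a0 : E}
    (hN : nm a0 = Ideal.absNorm 𝔞) (hmul : 𝔞 * cj d 𝔞 = Ideal.span {d.om a0}) :
    Ideal.absNorm (cj d 𝔞) = Ideal.absNorm 𝔞 := by
  have h := congrArg Ideal.absNorm hmul
  rw [map_mul, absNorm_om, hN, sq] at h
  exact Nat.eq_of_mul_eq_mul_left (absNorm_pos ha) h

theorem cube_inj {𝔞 𝔟 : Ideal (𝓞 L)} (h : 𝔞 ^ 3 = 𝔟 ^ 3) : 𝔞 = 𝔟 := by
  apply dvd_antisymm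
  · exact (UniqueFactorizationMonoid.pow_dvd_pow_iff_dvd three_ne_zero).1 (dvd_of_eq h)
  · exact (UniqueFactorizationMonoid.pow_dvd_pow_iff_dvd three_ne_zero).1 (dvd_of_eq h.symm)

theorem t_TB : S_TBof := by
  intro hDSC hNRM hLSV K ε hK hε
  obtain ⟨Cd, hCd, hD⟩ := hDSC
  obtain ⟨CL, hCL, hL⟩ := hLSV ε hε
  obtain ⟨C', hC'⟩ : ∃ C', C' = 1 + 432 * K ^ 2 * √Cd + 2 * K + 288 * K ^ 3 * √Cd := ⟨_, rfl⟩
  have hC'0 : 0 < C' := by rw [hC']; positivity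
  refine ⟨((EB 1).card + 1) * (CL * 17 ^ ε) * C', by positivity, ?_⟩
  intro L _ _ d X hX 𝔞 h𝔞
  rw [mem_FI] at h𝔞
  obtain ⟨haX, ha0⟩ := h𝔞
  have hNa : (0 : ℝ) < Ideal.absNorm 𝔞 := by exact_mod_cast absNorm_pos ha0
  obtain ⟨D, hDD⟩ : ∃ D : ℝ, D = |(discr L : ℝ)| := ⟨_, rfl⟩
  have hD1 : 1 ≤ D := by
    rw [hDD]
    have : 1 ≤ |discr L| := Int.one_le_abs (discr_ne_zero L)
    exact_mod_cast this
  have hD0 : 0 < D := by linarith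
  rw [← hDD]
  obtain ⟨a0, ha00, hN, hmul⟩ := hNRM L d 𝔞 ha0
  -- the ideal and the norm form
  obtain ⟨𝔠, h𝔠⟩ : ∃ 𝔠, 𝔠 = (cj d 𝔞) ^ 3 := ⟨_, rfl⟩
  obtain ⟨A, hA⟩ : ∃ A, A = a0 ^ 3 := ⟨_, rfl⟩
  have hA0 : A ≠ 0 := by rw [hA]; exact pow_ne_zero 3 ha00
  have hc : 𝔠 * cj d 𝔠 = Ideal.span {d.om A} := by
    rw [h𝔠, cj_pow, cj_cj, ← mul_pow, mul_comm (cj d 𝔞), hmul, Ideal.span_singleton_pow, hA, map_pow]
  have hcN : Ideal.absNorm 𝔠 = nm A := by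
    rw [h𝔠, map_pow, absNorm_cj d ha0 hN hmul, hA, nm_cube, hN]
  have hc0 : 𝔠 ≠ ⊥ := by
    intro h
    rw [h, Ideal.absNorm_bot] at hcN
    exact hA0 (nm_eq_zero.1 hcN.symm)
  obtain ⟨R, hR⟩ : ∃ R, R = 16 * √D + 1 := ⟨_, rfl⟩
  have hR0 : 0 ≤ R := by rw [hR]; positivity
  obtain ⟨e, he, he0, hew, hmin⟩ := exists_e d hc0 (R := R) (by rw [hR, hDD])
  obtain ⟨w0, hw0⟩ := Finite.exists_max fun w : InfinitePlace L => w (e : L)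
  -- the real parameters
  obtain ⟨n, hn⟩ : ∃ n, n = (Ideal.absNorm 𝔞 : ℝ) ^ (3 / 4 : ℝ) := ⟨_, rfl⟩
  obtain ⟨X1, hX1⟩ : ∃ X1, X1 = (X : ℝ) ^ (3 / 4 : ℝ) := ⟨_, rfl⟩
  obtain ⟨q, hq⟩ : ∃ q, q = D ^ (1 / 8 : ℝ) := ⟨_, rfl⟩
  have hXr : (1 : ℝ) ≤ X := by exact_mod_cast hX
  have hn0 : 0 < n := by rw [hn]; positivity
  have hX10 : 0 < X1 := by rw [hX1]; positivity
  have hq0 : 0 < q := by rw [hq]; positivity
  have hn4 : n ^ 4 = (nm A : ℝ) := by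
    rw [hn, ← Real.rpow_natCast, ← Real.rpow_mul hNa.le, hA, nm_cube, hN]
    push_cast
    rw [← Real.rpow_natCast]
    norm_num
  have hq4 : q ^ 4 = √D := by
    rw [hq, ← Real.rpow_natCast, ← Real.rpow_mul hD0.le, Real.sqrt_eq_rpow]
    norm_num
  have hR17 : R ≤ 17 * √D := by
    have : 1 ≤ √D := Real.one_le_sqrt.2 hD1
    rw [hR]; linarith
  have hs0 : (0 : ℝ) < √(nm d.α : ℝ) := Real.sqrt_pos.2 (by exact_mod_cast nm_pos (α_ne d))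
  -- the size of `e`
  have hm1 : n ≤ w0 (e : L) := by
    obtain ⟨w', -, hp⟩ := absNorm_span d w0
    have h1 : Ideal.absNorm 𝔠 ≤ Ideal.absNorm (Ideal.span {e}) := by
      apply Nat.le_of_dvd
      · apply absNorm_pos
        rw [Ne, Ideal.span_singleton_eq_bot]
        exact he0
      · apply Ideal.absNorm_dvd_absNorm_of_le
        rw [Ideal.span_singleton_le_iff_mem]
        exact he
    have h2 : n ^ 4 ≤ w0 (e : L) ^ 4 := by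
      calc n ^ 4 = (Ideal.absNorm 𝔠 : ℝ) := by rw [hn4, hcN]
        _ ≤ (Ideal.absNorm (Ideal.span {e}) : ℝ) := by exact_mod_cast h1
        _ = w0 (e : L) ^ 2 * w' (e : L) ^ 2 := hp e
        _ ≤ w0 (e : L) ^ 2 * w0 (e : L) ^ 2 := by
            gcongr
            exact hw0 w'
        _ = _ := by ring
    exact le_of_pow_le_pow_left₀ (by norm_num) (apply_nonneg _ _) h2
  have hm2 : w0 (e : L) ≤ 3 * q * n := by
    have h1 : w0 (e : L) ^ 4 ≤ (3 * q * n) ^ 4 := by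
      calc w0 (e : L) ^ 4 ≤ R * Ideal.absNorm 𝔠 := hew w0
        _ ≤ (17 * √D) * n ^ 4 := by rw [hn4, hcN]; gcongr
        _ ≤ (81 * √D) * n ^ 4 := by gcongr; norm_num
        _ = _ := by rw [← hq4]; ring
    exact le_of_pow_le_pow_left₀ (by norm_num) (by positivity) h1
  have hqs : q ^ 4 ≤ √Cd * √(nm d.α : ℝ) := by
    rw [hq4, ← Real.sqrt_mul hCd.le]
    apply Real.sqrt_le_sqrt
    rw [hDD]
    exact (hD L d).2
  -- the elements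
  obtain ⟨S, hS⟩ : ∃ S, S = (FI L X).filter fun 𝔟 => Rel K L 𝔞 𝔟 := ⟨_, rfl⟩
  have hg : ∀ 𝔟 ∈ S, ∃ g : 𝓞 L, Ideal.span {g} = 𝔠 * 𝔟 ^ 3 ∧
      ∀ w : InfinitePlace L, w (g : L) ≤ K * (n * X1) := by
    intro 𝔟 h𝔟
    rw [hS, mem_filter, mem_FI] at h𝔟
    obtain ⟨⟨hbX, hb0⟩, hrel⟩ := h𝔟
    obtain ⟨g, hg1, hg2⟩ := exists_g d hK ha0 hb0 hN hmul hrel
    refine ⟨g, by rw [hg1, h𝔠], fun w => (hg2 w).trans ?_⟩
    rw [hn, hX1]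
    gcongr
  choose! g hg1 hg2 using hg
  have hinj : Set.InjOn g S := by
    intro 𝔟 h𝔟 𝔟' h𝔟' hgg
    have h1 := hg1 𝔟 h𝔟
    rw [hgg, hg1 𝔟' h𝔟'] at h1
    exact (cube_inj (mul_left_cancel₀ hc0 h1)).symm
  have hcard : (S.image g).card = S.card := Finset.card_image_of_injOn hinj
  have key := total d hA0 hc hcN he he0 hmin hR0 hew w0 hw0 hCL.le hε.le hL (G := K * (n * X1))
    (S.image g) (by
      intro x hx
      obtain ⟨𝔟, h𝔟, rfl⟩ := mem_image.1 hx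
      have hb0 : 𝔟 ≠ ⊥ := by
        rw [hS, mem_filter, mem_FI] at h𝔟
        exact h𝔟.1.2
      refine ⟨?_, hg2 𝔟 h𝔟, ?_⟩
      · have h1 : g 𝔟 ∈ 𝔠 * 𝔟 ^ 3 := by
          rw [← hg1 𝔟 h𝔟]; exact Ideal.mem_span_singleton_self _
        exact Ideal.dvd_span_singleton.1 ⟨_, hg1 𝔟 h𝔟⟩
      · obtain ⟨b, hb1, -, hb2⟩ := hNRM L d 𝔟 hb0
        refine ⟨b, hb1, ?_⟩
        rw [← Ideal.span_singleton_mul_span_singleton, ← cj_span, hg1 𝔟 h𝔟, cj_mul, cj_pow]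
        calc 𝔠 * 𝔟 ^ 3 * (cj d 𝔠 * cj d 𝔟 ^ 3) = (𝔠 * cj d 𝔠) * (𝔟 * cj d 𝔟) ^ 3 := by ring
          _ = Ideal.span {d.om A} * Ideal.span {d.om b} ^ 3 := by rw [hc, hb2]
          _ = _ := by
            rw [Ideal.span_singleton_pow, Ideal.span_singleton_mul_span_singleton, map_mul, map_pow])
  rw [hcard] at key
  rw [← hS]
  have hnum := numeric hn0 hq0 hX10 hK (Real.sqrt_pos.2 hCd) hs0 hm1 hm2 hqs
  rw [← hC', hn4] at hnum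
  have hXY : X1 ^ 3 / q ^ 3 = (X : ℝ) ^ (9 / 4 : ℝ) * D ^ (-(3 / 8) : ℝ) := by
    rw [hX1, hq, ← Real.rpow_natCast, ← Real.rpow_natCast, ← Real.rpow_mul (by positivity),
      ← Real.rpow_mul hD0.le, div_eq_mul_inv, ← Real.rpow_neg hD0.le]
    norm_num
  rw [hXY] at hnum
  have hRε : R ^ ε ≤ 17 ^ ε * D ^ ε := by
    calc R ^ ε ≤ (17 * D) ^ ε := by
          apply Real.rpow_le_rpow hR0 _ hε.le
          refine hR17.trans ?_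
          have : √D ≤ D := by
            rw [Real.sqrt_le_left hD0.le]
            nlinarith
          linarith
      _ = _ := Real.mul_rpow (by norm_num) hD0.le
  have hXε : 1 ≤ (X : ℝ) ^ ε := Real.one_le_rpow hXr hε.le
  obtain ⟨F, hF⟩ : ∃ F, F = (1 + (X : ℝ) ^ (3 / 4 : ℝ) + (X : ℝ) ^ (9 / 4 : ℝ) * D ^ (-(3 / 8) : ℝ)) :=
    ⟨_, rfl⟩
  rw [hX1, ← hF] at hnum
  rw [← hF]
  rw [hX1] at key
  have hF0 : 0 ≤ F := by rw [hF]; positivity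
  obtain ⟨c6, hc6⟩ : ∃ c6 : ℝ, c6 = ((EB 1).card : ℝ) := ⟨_, rfl⟩
  have hc60 : 0 ≤ c6 := by rw [hc6]; exact Nat.cast_nonneg _
  rw [← hc6] at key ⊢
  have hCR : 0 ≤ c6 * (CL * R ^ ε) := by positivity
  obtain ⟨Z, hZ⟩ : ∃ Z, Z = (1 + 12 * ((2 * w0 (e : L) * (K * (n * (X : ℝ) ^ (3 / 4 : ℝ)))) ^ 2 /
    (nm A * √(nm d.α : ℝ)))) := ⟨_, rfl⟩
  obtain ⟨Y, hY⟩ : ∃ Y, Y = √(1 + (2 * (K * (n * (X : ℝ) ^ (3 / 4 : ℝ))) / w0 (e : L)) ^ 2) := ⟨_, rfl⟩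
  rw [← hZ, ← hY] at key hnum
  obtain ⟨x, hx⟩ : ∃ x, x = (X : ℝ) ^ ε := ⟨_, rfl⟩
  rw [← hx] at hXε ⊢
  obtain ⟨De, hDe⟩ : ∃ x, x = D ^ ε := ⟨_, rfl⟩
  have hDe0 : 0 ≤ De := by rw [hDe]; positivity
  rw [← hDe] at hRε ⊢
  obtain ⟨t, ht⟩ : ∃ x, x = (17 : ℝ) ^ ε := ⟨_, rfl⟩
  have ht0 : 0 ≤ t := by rw [ht]; positivity
  rw [← ht] at hRε ⊢
  calc (S.card : ℝ) ≤ Z * (c6 * (CL * Y * R ^ ε)) := key
    _ = (Z * Y) * (c6 * (CL * R ^ ε)) := by ring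
    _ ≤ (C' * F) * (c6 * (CL * R ^ ε)) := mul_le_mul_of_nonneg_right hnum hCR
    _ ≤ (C' * F) * ((c6 + 1) * (CL * (t * De))) := by
        apply mul_le_mul_of_nonneg_left _ (mul_nonneg hC'0.le hF0)
        apply mul_le_mul (by linarith) _ (by positivity) (by linarith)
        exact mul_le_mul_of_nonneg_left hRε hCL.le
    _ = ((c6 + 1) * (CL * t) * C' * De * F) * 1 := by ring
    _ ≤ ((c6 + 1) * (CL * t) * C' * De * F) * x :=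
        mul_le_mul_of_nonneg_left hXε (by positivity)
    _ = _ := by ring

end Pool.Agent.K1H30.Q3
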