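import Pool.Agent.K1H30.Q3.Fld
import Pool.Agent.TH847.LG.Pack

/-! # Project Q3: the geometry of a cell

Owner helper30. -/

set_option autoImplicit false

namespace Pool.Agent.K1H30.Q3

open Finset NumberField Pool.Agent.TH847.LS Pool.Agent.K1H79.Q3
open scoped QuadraticAlgebra Classical nonZeroDivisors

variable {L : Type} [Field L] [NumberField L]

/-- the conjugate ideal -/
noncomputable abbrev cj (d : Dat L) (𝔞 : Ideal (𝓞 L)) : Ideal (𝓞 L) := 𝔞.map (d.sg : 𝓞 L →+* 𝓞 L)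

omit [NumberField L] in
theorem w_mul (w : InfinitePlace L) (a b : 𝓞 L) : w ((a * b : 𝓞 L) : L) = w (a : L) * w (b : L) := by
  rw [show ((a * b : 𝓞 L) : L) = (a : L) * (b : L) from rfl, map_mul]

theorem w_sub (w : InfinitePlace L) (a b : 𝓞 L) : w ((a - b : 𝓞 L) : L) ≤ w (a : L) + w (b : L) := by
  rw [show ((a - b : 𝓞 L) : L) = (a : L) - (b : L) from rfl, ← InfinitePlace.norm_embedding_eq,
    ← InfinitePlace.norm_embedding_eq, ← InfinitePlace.norm_embedding_eq, map_sub]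
  exact norm_sub_le _ _

theorem w_om_cube (d : Dat L) (w : InfinitePlace L) {a : E} {na : ℝ}
    (h : na ^ 4 = (nm a : ℝ) ^ 3) : w ((d.om a : 𝓞 L) : L) ^ 3 = na ^ 2 := by
  have h1 := w_om d w a
  have h2 : 0 ≤ w ((d.om a : 𝓞 L) : L) := apply_nonneg _ _
  rw [← h1] at h
  have h3 : (na ^ 2) ^ 2 = (w ((d.om a : 𝓞 L) : L) ^ 3) ^ 2 := by
    rw [← pow_mul, ← pow_mul, h, ← pow_mul]
  exact ((sq_eq_sq₀ (by positivity) (by positivity)).1 h3).symm

theorem exists_g (d : Dat L) {K : ℝ} (hK : 0 < K) {𝔞 𝔟 : Ideal (𝓞 L)} (ha : 𝔞 ≠ ⊥) (hb : 𝔟 ≠ ⊥)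
    {a0 : E} (hN : nm a0 = Ideal.absNorm 𝔞)
    (hmul : 𝔞 * cj d 𝔞 = Ideal.span {d.om a0}) (h : Rel K L 𝔞 𝔟) :
    ∃ g : 𝓞 L, Ideal.span {g} = (cj d 𝔞) ^ 3 * 𝔟 ^ 3 ∧
      ∀ w : InfinitePlace L, w (g : L) ≤
        K * ((Ideal.absNorm 𝔞 : ℝ) ^ (3 / 4 : ℝ) * (Ideal.absNorm 𝔟 : ℝ) ^ (3 / 4 : ℝ)) := by
  obtain ⟨x, y, hx, hy, hxy, hw⟩ := h
  have hNa : (0 : ℝ) < Ideal.absNorm 𝔞 := by exact_mod_cast absNorm_pos ha
  have hNb : (0 : ℝ) < Ideal.absNorm 𝔟 := by exact_mod_cast absNorm_pos hb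
  have h1 : Ideal.span {x * d.om a0 ^ 3} = Ideal.span {y} * ((cj d 𝔞) ^ 3 * 𝔟 ^ 3) := by
    have e0 : Ideal.span {x * d.om a0 ^ 3} = Ideal.span {x} * (𝔞 ^ 3 * cj d 𝔞 ^ 3) := by
      rw [← mul_pow, hmul, Ideal.span_singleton_pow, Ideal.span_singleton_mul_span_singleton]
    rw [e0]
    calc Ideal.span {x} * (𝔞 ^ 3 * cj d 𝔞 ^ 3) = (Ideal.span {x} * 𝔞 ^ 3) * cj d 𝔞 ^ 3 := by
          rw [mul_assoc]
      _ = _ := by rw [hxy]; ring
  have h2 : x * d.om a0 ^ 3 ∈ Ideal.span {y} := Ideal.dvd_span_singleton.1 ⟨_, h1⟩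
  obtain ⟨g, hg⟩ := Ideal.mem_span_singleton'.1 h2
  refine ⟨g, ?_, ?_⟩
  · rw [← hg, mul_comm g y, ← Ideal.span_singleton_mul_span_singleton] at h1
    refine mul_left_cancel₀ ?_ h1
    rw [Ideal.zero_eq_bot, Ne, Ideal.span_singleton_eq_bot]
    exact hy
  · intro w
    obtain ⟨w', -, hp⟩ := absNorm_span d w
    obtain ⟨na, hna⟩ : ∃ na, na = (Ideal.absNorm 𝔞 : ℝ) ^ (3 / 4 : ℝ) := ⟨_, rfl⟩
    obtain ⟨nb, hnb⟩ : ∃ nb, nb = (Ideal.absNorm 𝔟 : ℝ) ^ (3 / 4 : ℝ) := ⟨_, rfl⟩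
    have hna0 : 0 < na := by rw [hna]; positivity
    have hnb0 : 0 < nb := by rw [hnb]; positivity
    have hna4 : na ^ 4 = (Ideal.absNorm 𝔞 : ℝ) ^ 3 := by
      rw [hna, ← Real.rpow_natCast, ← Real.rpow_mul hNa.le, ← Real.rpow_natCast]
      norm_num
    have hnb4 : nb ^ 4 = (Ideal.absNorm 𝔟 : ℝ) ^ 3 := by
      rw [hnb, ← Real.rpow_natCast, ← Real.rpow_mul hNb.le, ← Real.rpow_natCast]
      norm_num
    rw [← hna, ← hnb]
    have e1 : (Ideal.absNorm (Ideal.span {x}) : ℝ) * na ^ 4 =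
        (Ideal.absNorm (Ideal.span {y}) : ℝ) * nb ^ 4 := by
      have := congrArg Ideal.absNorm hxy
      rw [map_mul, map_mul, map_pow, map_pow] at this
      rw [hna4, hnb4]
      exact_mod_cast this
    rw [hp, hp] at e1
    have hx0 : 0 < w' (x : L) := InfinitePlace.pos_iff.2 (by simpa using hx)
    have hy0 : 0 < w (y : L) := InfinitePlace.pos_iff.2 (by simpa using hy)
    have e2 : w' (y : L) * nb ≤ K * na * w' (x : L) := by
      have := hw w'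
      rw [d.deg] at this
      push_cast at this
      rw [Real.div_rpow hNa.le hNb.le, ← hna, ← hnb] at this
      calc w' (y : L) * nb ≤ (K * (na / nb) * w' (x : L)) * nb := by gcongr
        _ = _ := by field_simp
    have e3 : (w (x : L) * na) ^ 2 ≤ (w (y : L) * (K * nb)) ^ 2 := by
      have e4 : (w' (y : L) * nb) ^ 2 ≤ (K * na * w' (x : L)) ^ 2 :=
        pow_le_pow_left₀ (mul_nonneg (apply_nonneg _ _) hnb0.le) e2 2
      have e5 : (w' (x : L) ^ 2 * na ^ 2) * (w (x : L) * na) ^ 2 ≤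
          (w' (x : L) ^ 2 * na ^ 2) * (w (y : L) * (K * nb)) ^ 2 := by
        calc (w' (x : L) ^ 2 * na ^ 2) * (w (x : L) * na) ^ 2 =
              w (x : L) ^ 2 * w' (x : L) ^ 2 * na ^ 4 := by ring
          _ = w (y : L) ^ 2 * nb ^ 2 * (w' (y : L) * nb) ^ 2 := by rw [e1]; ring
          _ ≤ w (y : L) ^ 2 * nb ^ 2 * (K * na * w' (x : L)) ^ 2 := by gcongr
          _ = _ := by ring
      exact le_of_mul_le_mul_left e5 (by positivity)
    have e6 : w (x : L) * na ≤ w (y : L) * (K * nb) :=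
      le_of_sq_le_sq e3 (by positivity)
    have e7 : w (g : L) * w (y : L) = w (x : L) * na ^ 2 := by
      have := congrArg (fun z : 𝓞 L => w (z : L)) hg
      simp only [map_mul, map_pow] at this
      rw [this, w_om_cube d w (by rw [hna4, hN])]
    have e8 : w (y : L) * w (g : L) ≤ w (y : L) * (K * (na * nb)) := by
      calc w (y : L) * w (g : L) = (w (x : L) * na) * na := by rw [mul_comm, e7]; ring
        _ ≤ (w (y : L) * (K * nb)) * na := by gcongr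
        _ = _ := by ring
    exact le_of_mul_le_mul_left e8 hy0

theorem mem_cj (d : Dat L) {𝔠 : Ideal (𝓞 L)} {g : 𝓞 L} (hg : g ∈ 𝔠) : d.sg g ∈ cj d 𝔠 :=
  Ideal.mem_map_of_mem _ hg

theorem exists_v (d : Dat L) {𝔠 : Ideal (𝓞 L)} {A : E} 
    (hc : 𝔠 * cj d 𝔠 = Ideal.span {d.om A}) {e g : 𝓞 L} (he : e ∈ 𝔠) (hg : g ∈ 𝔠) :
    ∃ v : E, e * d.sg g - d.sg e * g = d.om A * (d.om v * d.s) := by
  have h1 : e * d.sg g ∈ Ideal.span {d.om A} := by
    rw [← hc]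
    exact Ideal.mul_mem_mul he (mem_cj d hg)
  obtain ⟨t, ht⟩ := Ideal.mem_span_singleton'.1 h1
  have h2 : d.sg e * g = d.sg t * d.om A := by
    have := congrArg d.sg ht
    rw [map_mul, map_mul, sg_sg, sg_om] at this
    exact this.symm
  obtain ⟨v, hv⟩ := antifixed d (t - d.sg t) (by rw [map_sub, sg_sg]; ring)
  refine ⟨v, ?_⟩
  rw [← hv, ← ht, h2]
  ring

theorem exists_fix (d : Dat L) {A : E} (hA : A ≠ 0) {x : 𝓞 L} (hx : x ∈ Ideal.span {d.om A})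
    (hs : d.sg x = x) : ∃ t : E, x = d.om (A * t) := by
  obtain ⟨y, hy⟩ := Ideal.mem_span_singleton'.1 hx
  have h1 : d.sg y = y := by
    apply mul_right_cancel₀ (om_ne d hA)
    have := congrArg d.sg hy
    rw [map_mul, sg_om, hs, ← hy] at this
    exact this
  obtain ⟨t, ht⟩ := fixed d y h1
  refine ⟨t, ?_⟩
  rw [← hy, ht, map_mul, mul_comm]

/-- the square of the absolute value of `s` -/
theorem w_s (d : Dat L) (w : InfinitePlace L) : w (d.s : L) ^ 2 = √(nm d.α : ℝ) := by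
  have h := congrArg (fun z : 𝓞 L => w (z : L)) d.sq
  simp only [map_pow] at h
  have h1 := w_om d w d.α
  rw [← h] at h1
  rw [← h1, Real.sqrt_sq (by positivity)]

/-- the size of `v` -/
theorem v_bound (d : Dat L) {A v : E} {e g : 𝓞 L} {M G : ℝ}
    (hv : e * d.sg g - d.sg e * g = d.om A * (d.om v * d.s))
    (he : ∀ w : InfinitePlace L, w (e : L) ≤ M) (hg : ∀ w : InfinitePlace L, w (g : L) ≤ G) :
    (nm A : ℝ) * (nm v * √(nm d.α : ℝ)) ≤ (2 * M * G) ^ 2 := by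
  obtain ⟨w⟩ : Nonempty (InfinitePlace L) := inferInstance
  obtain ⟨w', hw'⟩ := w_sg d w
  have h1 := congrArg (fun z : 𝓞 L => w (z : L)) hv
  simp only [map_mul] at h1
  rw [← w_om d w A, ← w_om d w v, ← w_s d w, ← mul_pow, ← mul_pow, ← h1]
  have hM : 0 ≤ M := le_trans (apply_nonneg _ _) (he w)
  have hG : 0 ≤ G := le_trans (apply_nonneg _ _) (hg w)
  refine pow_le_pow_left₀ (apply_nonneg _ _) ?_ 2
  calc w ((e * d.sg g - d.sg e * g : 𝓞 L) : L) ≤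
        w ((e * d.sg g : 𝓞 L) : L) + w ((d.sg e * g : 𝓞 L) : L) := w_sub _ _ _
    _ = w (e : L) * w ((d.sg g : 𝓞 L) : L) + w ((d.sg e : 𝓞 L) : L) * w (g : L) := by
        rw [w_mul, w_mul]
    _ = w (e : L) * w' (g : L) + w' (e : L) * w (g : L) := by rw [hw', hw']
    _ ≤ M * G + M * G := by
        gcongr
        · exact he w
        · exact hg w'
        · exact he w'
        · exact hg w
    _ = 2 * M * G := by ring

/-- a good short vector of an ideal -/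
theorem exists_e (d : Dat L) {𝔠 : Ideal (𝓞 L)} (hc : 𝔠 ≠ ⊥) {R : ℝ} (hR : 16 * √|(discr L : ℝ)| + 1 ≤ R) :
    ∃ e : 𝓞 L, e ∈ 𝔠 ∧ e ≠ 0 ∧ (∀ w : InfinitePlace L, w (e : L) ^ 4 ≤ R * Ideal.absNorm 𝔠) ∧
      ∀ h : 𝓞 L, h ∈ 𝔠 → (∀ w : InfinitePlace L, w (h : L) ^ 2 < w (e : L) ^ 2) → h = 0 := by
  have h1 : ∃ n : ℕ, ∃ e : 𝓞 L, Ideal.absNorm (Ideal.span {e}) = n ∧ e ∈ 𝔠 ∧ e ≠ 0 ∧
      ∀ w : InfinitePlace L, w (e : L) ^ 4 ≤ R * Ideal.absNorm 𝔠 := by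
    have hN : (2 : ℝ) ^ 4 * √|(discr L : ℝ)| < ((⌊16 * √|(discr L : ℝ)|⌋₊ + 1 : ℕ) : ℝ) := by
      have := Nat.lt_floor_add_one (16 * √|(discr L : ℝ)|)
      push_cast
      norm_num
      exact this
    obtain ⟨e, he, he0, hew⟩ := Pool.Agent.TH847.LG.mink d.deg
      ⟨𝔠, mem_nonZeroDivisors_of_ne_zero hc⟩ _ hN
    refine ⟨_, e, rfl, he, he0, fun w => (hew w).le.trans ?_⟩
    gcongr
    push_cast
    have := Nat.floor_le (a := 16 * √|(discr L : ℝ)|) (by positivity)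
    linarith
  obtain ⟨e, he1, he2, he3, he4⟩ := Nat.find_spec h1
  refine ⟨e, he2, he3, he4, ?_⟩
  intro h hh hw
  by_contra h0
  obtain ⟨w⟩ : Nonempty (InfinitePlace L) := inferInstance
  obtain ⟨w', -, hp⟩ := absNorm_span d w
  have h2 : (Ideal.absNorm (Ideal.span {h}) : ℝ) < Ideal.absNorm (Ideal.span {e}) := by
    rw [hp, hp]
    exact mul_lt_mul'' (hw w) (hw w') (by positivity) (by positivity)
  have h3 : Ideal.absNorm (Ideal.span {h}) < Nat.find h1 := by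
    rw [← he1]
    exact_mod_cast h2
  apply Nat.find_min h1 h3
  refine ⟨h, rfl, hh, h0, fun v => le_trans ?_ (he4 v)⟩
  have h4 := pow_le_pow_left₀ (by positivity) (hw v).le 2
  rw [← pow_mul, ← pow_mul] at h4
  exact h4

end Pool.Agent.K1H30.Q3
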