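import Pool.Agent.K1H30.Q3.TBa

/-! # Project Q3: counting the elements of a cell

Owner helper30. -/

set_option autoImplicit false

namespace Pool.Agent.K1H30.Q3

open Finset NumberField Pool.Agent.TH847.LS Pool.Agent.K1H79.Q3
open scoped QuadraticAlgebra Classical nonZeroDivisors

theorem card_EB (n : ℕ) : (EB n).card ≤ 12 * n := by
  rcases Nat.eq_zero_or_pos n with rfl | hn
  · rw [Nat.mul_zero, Nat.le_zero, Finset.card_eq_zero, Finset.eq_empty_iff_forall_notMem]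
    intro z hz
    rw [mem_EB] at hz
    exact hz.1 (nm_eq_zero.1 (Nat.le_zero.1 hz.2))
  · obtain ⟨m, hm⟩ : ∃ m, m = Nat.sqrt (4 * n / 3) := ⟨_, rfl⟩
    have h1 : m * m ≤ 4 * n / 3 := hm ▸ Nat.sqrt_le _
    have h2 : 1 ≤ m := by
      rw [hm, Nat.le_sqrt]
      omega
    have h3 : EB n ⊆ ((Finset.Icc (-(m : ℤ)) m) ×ˢ (Finset.Icc (-(m : ℤ)) m)).image
        fun p => (⟨p.1, p.2⟩ : E) := by
      intro z hz
      rw [mem_EB] at hz
      have h4 : z.re ^ 2 - z.re * z.im + z.im ^ 2 ≤ (n : ℤ) := by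
        rw [← nm_cast]; exact_mod_cast hz.2
      have key : ∀ a : ℤ, 3 * a ^ 2 ≤ 4 * n → a ∈ Finset.Icc (-(m : ℤ)) m := by
        intro a ha
        rw [Finset.mem_Icc, ← abs_le]
        have h5 : a.natAbs ≤ m := by
          rw [hm, Nat.le_sqrt, Nat.le_div_iff_mul_le (by norm_num)]
          have : ((a.natAbs * a.natAbs * 3 : ℕ) : ℤ) ≤ ((4 * n : ℕ) : ℤ) := by
            push_cast
            rw [abs_mul_abs_self]
            linarith
          exact_mod_cast this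
        rw [Int.abs_eq_natAbs]
        exact_mod_cast h5
      rw [Finset.mem_image]
      refine ⟨(z.re, z.im), ?_, rfl⟩
      rw [Finset.mem_product]
      exact ⟨key _ (by nlinarith [sq_nonneg (2 * z.im - z.re)]),
        key _ (by nlinarith [sq_nonneg (2 * z.re - z.im)])⟩
    calc (EB n).card ≤ _ := Finset.card_le_card h3
      _ ≤ _ := Finset.card_image_le
      _ = (2 * m + 1) * (2 * m + 1) := by
          rw [Finset.card_product, Int.card_Icc]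
          congr 1 <;> omega
      _ ≤ (3 * m) * (3 * m) := by gcongr <;> omega
      _ = 9 * (m * m) := by ring
      _ ≤ 12 * n := by omega

variable {L : Type} [Field L] [NumberField L]

theorem sg_ne (d : Dat L) {e : 𝓞 L} (he : e ≠ 0) : d.sg e ≠ 0 := by
  intro h
  apply he
  rw [← sg_sg d e, h, map_zero]

omit [NumberField L] in
theorem w_pos' (w : InfinitePlace L) {e : 𝓞 L} (he : e ≠ 0) : 0 < w (e : L) :=
  InfinitePlace.pos_iff.2 (by simpa using he)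

theorem kernel (d : Dat L) {𝔠 : Ideal (𝓞 L)} {e h : 𝓞 L} (he : e ∈ 𝔠) (he0 : e ≠ 0)
    (hmin : ∀ h : 𝓞 L, h ∈ 𝔠 → (∀ w : InfinitePlace L, w (h : L) ^ 2 < w (e : L) ^ 2) → h = 0)
    (hh : h ∈ 𝔠) (hk : e * d.sg h = d.sg e * h) : ∃ u : E, h = d.om u * e := by
  obtain ⟨p, hp⟩ := fixed d (h * d.sg e) (by rw [map_mul, sg_sg, mul_comm, hk, mul_comm])
  obtain ⟨q, hq⟩ := fixed d (e * d.sg e) (by rw [map_mul, sg_sg, mul_comm])
  have hq0 : q ≠ 0 := by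
    rintro rfl
    rw [map_zero] at hq
    exact mul_ne_zero he0 (sg_ne d he0) hq
  obtain ⟨u, hu⟩ := exists_quo p q hq0
  refine ⟨u, ?_⟩
  have h1 : (h - d.om u * e) * d.sg e = d.om (p - u * q) := by
    rw [map_sub, map_mul, ← hp, ← hq]; ring
  have h2 : h - d.om u * e = 0 := by
    apply hmin
    · exact 𝔠.sub_mem hh (𝔠.mul_mem_left _ he)
    · intro w
      have h3 : w ((h - d.om u * e : 𝓞 L) : L) ^ 2 * w ((d.sg e : 𝓞 L) : L) ^ 2 <
          w (e : L) ^ 2 * w ((d.sg e : 𝓞 L) : L) ^ 2 := by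
        rw [← mul_pow, ← mul_pow, ← w_mul, ← w_mul, h1, hq, w_om, w_om]
        exact_mod_cast hu
      exact lt_of_mul_lt_mul_right h3 (by positivity)
  exact sub_eq_zero.1 h2

theorem form (d : Dat L) {𝔠 : Ideal (𝓞 L)} {A : E} (hA : A ≠ 0)
    (hc : 𝔠 * cj d 𝔠 = Ideal.span {d.om A}) {e g0 : 𝓞 L} (he : e ∈ 𝔠) (he0 : e ≠ 0)
    (hg0 : g0 ∈ 𝔠) : ∃ P R S : E, P ≠ 0 ∧
      (∀ w : InfinitePlace L, (nm A : ℝ) * nm P = w (e : L) ^ 2 * w ((d.sg e : 𝓞 L) : L) ^ 2) ∧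
      ∀ u : E, (g0 + d.om u * e) * d.sg (g0 + d.om u * e) =
        d.om (A * (P * u ^ 2 + R * u + S)) := by
  obtain ⟨P, hP⟩ := exists_fix d hA (x := e * d.sg e)
    (by rw [← hc]; exact Ideal.mul_mem_mul he (mem_cj d he)) (by rw [map_mul, sg_sg, mul_comm])
  obtain ⟨R, hR⟩ := exists_fix d hA (x := e * d.sg g0 + g0 * d.sg e)
    (by
      rw [← hc]
      exact Ideal.add_mem _ (Ideal.mul_mem_mul he (mem_cj d hg0)) (Ideal.mul_mem_mul hg0 (mem_cj d he)))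
    (by rw [map_add, map_mul, map_mul, sg_sg, sg_sg]; ring)
  obtain ⟨S, hS⟩ := exists_fix d hA (x := g0 * d.sg g0)
    (by rw [← hc]; exact Ideal.mul_mem_mul hg0 (mem_cj d hg0)) (by rw [map_mul, sg_sg, mul_comm])
  refine ⟨P, R, S, ?_, ?_, ?_⟩
  · rintro rfl
    rw [mul_zero, map_zero] at hP
    exact mul_ne_zero he0 (sg_ne d he0) hP
  · intro w
    rw [← mul_pow, ← w_mul, hP, w_om, nm_mul]
    push_cast
    rfl
  · intro u
    have h1 : d.om (A * (P * u ^ 2 + R * u + S)) =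
        d.om (A * P) * d.om u ^ 2 + d.om (A * R) * d.om u + d.om (A * S) := by
      simp only [map_mul, map_add, map_pow]; ring
    rw [h1, ← hP, ← hR, ← hS, map_add, map_mul, sg_om]
    ring

theorem assoc (d : Dat L) {A Q b : E} (hA : A ≠ 0) (hb : b ≠ 0)
    (h : Ideal.span {d.om (A * Q)} = Ideal.span {d.om (A * b ^ 3)}) :
    ∃ ζ : E, IsUnit ζ ∧ Q = ζ * b ^ 3 := by
  rw [Ideal.span_singleton_eq_span_singleton] at h
  have hAb : A * b ^ 3 ≠ 0 := mul_ne_zero hA (pow_ne_zero 3 hb)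
  have hAQ : A * Q ≠ 0 := by
    intro h0
    rw [h0, map_zero] at h
    exact om_ne d hAb ((associated_zero_iff_eq_zero _).1 h.symm)
  have h1 : A * Q ∣ A * b ^ 3 := dvd_of_om_dvd d hAQ h.dvd
  have h2 : A * b ^ 3 ∣ A * Q := dvd_of_om_dvd d hAb h.symm.dvd
  rw [mul_dvd_mul_iff_left hA] at h1 h2
  obtain ⟨u, hu⟩ := associated_of_dvd_dvd h2 h1
  exact ⟨u, u.isUnit, by rw [← hu, mul_comm]⟩

theorem fiber (d : Dat L) {𝔠 : Ideal (𝓞 L)} {A : E} (hA : A ≠ 0)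
    (hc : 𝔠 * cj d 𝔠 = Ideal.span {d.om A}) (hcN : Ideal.absNorm 𝔠 = nm A) {e : 𝓞 L} (he : e ∈ 𝔠)
    (he0 : e ≠ 0) (hmin : ∀ h : 𝓞 L, h ∈ 𝔠 →
      (∀ w : InfinitePlace L, w (h : L) ^ 2 < w (e : L) ^ 2) → h = 0)
    {R : ℝ} (hR0 : 0 ≤ R) (hR : ∀ w : InfinitePlace L, w (e : L) ^ 4 ≤ R * Ideal.absNorm 𝔠)
    (w0 : InfinitePlace L) {C ε G : ℝ} (hC : 0 ≤ C) (hε : 0 ≤ ε)
    (hL : ∀ (P R S ζ : E), P ≠ 0 → IsUnit ζ → ∀ W : ℝ, 1 ≤ W → ∀ U : Finset E,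
      (∀ u ∈ U, ∀ v ∈ U, (nm (u - v) : ℝ) ≤ W) →
      (∀ u ∈ U, ∃ a : E, P * u ^ 2 + R * u + S = ζ * a ^ 3) →
      (U.card : ℝ) ≤ C * √W * (nm P : ℝ) ^ ε)
    (z : 𝓞 L) (GG : Finset (𝓞 L)) (hGG : ∀ g ∈ GG, g ∈ 𝔠 ∧ (∀ w : InfinitePlace L, w (g : L) ≤ G) ∧
      (∃ b : E, b ≠ 0 ∧ Ideal.span {g * d.sg g} = Ideal.span {d.om (A * b ^ 3)}) ∧
      e * d.sg g - d.sg e * g = z) :
    (GG.card : ℝ) ≤ (EB 1).card * (C * √(1 + (2 * G / w0 (e : L)) ^ 2) * R ^ ε) := by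
  rcases GG.eq_empty_or_nonempty with rfl | ⟨g0, hg0⟩
  · rw [card_empty, Nat.cast_zero]; positivity
  obtain ⟨h01, h02, h03, h04⟩ := hGG g0 hg0
  have h1 : ∀ g ∈ GG, ∃ u : E, g = g0 + d.om u * e := by
    intro g hg
    obtain ⟨h11, h12, h13, h14⟩ := hGG g hg
    obtain ⟨u, hu⟩ := kernel d he he0 hmin (𝔠.sub_mem h11 h01) (by
      rw [map_sub]
      linear_combination h14 - h04)
    exact ⟨u, by rw [← hu]; ring⟩
  choose! u hu using h1
  obtain ⟨P, R', S, hP0, hPn, hPf⟩ := form d hA hc he he0 h01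
  have hPR : (nm P : ℝ) ≤ R := by
    obtain ⟨w'', hw''⟩ := w_sg d w0
    have h2 := hPn w0
    rw [hw''] at h2
    have hA0 : (0 : ℝ) < nm A := by exact_mod_cast nm_pos hA
    have h3 := hR w0
    have h4 := hR w''
    rw [hcN] at h3 h4
    have h5 : (w0 (e : L) ^ 2 * w'' (e : L) ^ 2) ^ 2 ≤ (R * nm A) ^ 2 := by
      calc (w0 (e : L) ^ 2 * w'' (e : L) ^ 2) ^ 2 = w0 (e : L) ^ 4 * w'' (e : L) ^ 4 := by ring
        _ ≤ (R * nm A) * (R * nm A) := by gcongr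
        _ = _ := by ring
    have h6 : w0 (e : L) ^ 2 * w'' (e : L) ^ 2 ≤ R * nm A := le_of_sq_le_sq h5 (by positivity)
    rw [← h2, mul_comm] at h6
    exact le_of_mul_le_mul_right h6 hA0
  have hinj : Set.InjOn u GG := by
    intro g hg g' hg' hgg
    rw [hu g hg, hu g' hg', hgg]
  have hcard : (GG.image u).card = GG.card := Finset.card_image_of_injOn hinj
  have hsub : GG.image u ⊆ (EB 1).biUnion fun ζ => (GG.image u).filter
      fun x => ∃ a : E, P * x ^ 2 + R' * x + S = ζ * a ^ 3 := by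
    intro x hx
    rw [mem_biUnion]
    obtain ⟨g, hg, hgx⟩ := mem_image.1 hx
    obtain ⟨h11, h12, ⟨b, hb0, hb⟩, h14⟩ := hGG g hg
    have h5 : Ideal.span {d.om (A * (P * x ^ 2 + R' * x + S))} =
        Ideal.span {d.om (A * b ^ 3)} := by
      rw [← hb, ← hPf, ← hgx, ← hu g hg]
    obtain ⟨ζ, hζ, h6⟩ := assoc d hA hb0 h5
    refine ⟨ζ, ?_, ?_⟩
    · rw [mem_EB]
      exact ⟨hζ.ne_zero, (isUnit_iff'.1 hζ).le⟩
    · rw [mem_filter]
      exact ⟨hx, b, h6⟩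
  have hfin : ∀ ζ ∈ EB 1, ((((GG.image u).filter
      fun x => ∃ a : E, P * x ^ 2 + R' * x + S = ζ * a ^ 3).card : ℕ) : ℝ) ≤
      C * √(1 + (2 * G / w0 (e : L)) ^ 2) * R ^ ε := by
    intro ζ hζ
    rw [mem_EB] at hζ
    have hζu : IsUnit ζ := isUnit_iff'.2 (le_antisymm hζ.2 (nm_pos hζ.1))
    have h7 := hL P R' S ζ hP0 hζu (1 + (2 * G / w0 (e : L)) ^ 2)
      (by have := sq_nonneg (2 * G / w0 (e : L)); linarith)
      ((GG.image u).filter fun x => ∃ a : E, P * x ^ 2 + R' * x + S = ζ * a ^ 3) ?_ ?_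
    · refine h7.trans ?_
      gcongr
    · intro x hx y hy
      obtain ⟨g, hg, hgx⟩ := mem_image.1 (mem_filter.1 hx).1
      obtain ⟨g', hg', hgy⟩ := mem_image.1 (mem_filter.1 hy).1
      have h8 : d.om (x - y) * e = g - g' := by
        rw [hu g hg, hu g' hg', hgx, hgy, map_sub]; ring
      have h9 : w0 ((d.om (x - y) : 𝓞 L) : L) * w0 (e : L) ≤ 2 * G := by
        rw [← w_mul, h8]
        have := w_sub w0 g g'
        have a1 := (hGG g hg).2.1 w0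
        have a2 := (hGG g' hg').2.1 w0
        linarith
      have h10 : w0 ((d.om (x - y) : 𝓞 L) : L) ≤ 2 * G / w0 (e : L) := by
        rw [le_div_iff₀ (w_pos' w0 he0)]; exact h9
      rw [← w_om d w0]
      have := pow_le_pow_left₀ (apply_nonneg _ _) h10 2
      linarith
    · intro x hx
      exact (mem_filter.1 hx).2
  rw [← hcard]
  calc (((GG.image u).card : ℕ) : ℝ) ≤ ((((EB 1).biUnion fun ζ => (GG.image u).filter
      fun x => ∃ a : E, P * x ^ 2 + R' * x + S = ζ * a ^ 3).card : ℕ) : ℝ) := by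
        exact_mod_cast Finset.card_le_card hsub
    _ ≤ ∑ ζ ∈ EB 1, ((((GG.image u).filter
      fun x => ∃ a : E, P * x ^ 2 + R' * x + S = ζ * a ^ 3).card : ℕ) : ℝ) := by
        exact_mod_cast Finset.card_biUnion_le
    _ ≤ ∑ ζ ∈ EB 1, C * √(1 + (2 * G / w0 (e : L)) ^ 2) * R ^ ε := Finset.sum_le_sum hfin
    _ = _ := by rw [Finset.sum_const, nsmul_eq_mul]

theorem total (d : Dat L) {𝔠 : Ideal (𝓞 L)} {A : E} (hA : A ≠ 0)
    (hc : 𝔠 * cj d 𝔠 = Ideal.span {d.om A}) (hcN : Ideal.absNorm 𝔠 = nm A) {e : 𝓞 L} (he : e ∈ 𝔠)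
    (he0 : e ≠ 0) (hmin : ∀ h : 𝓞 L, h ∈ 𝔠 →
      (∀ w : InfinitePlace L, w (h : L) ^ 2 < w (e : L) ^ 2) → h = 0)
    {R : ℝ} (hR0 : 0 ≤ R) (hR : ∀ w : InfinitePlace L, w (e : L) ^ 4 ≤ R * Ideal.absNorm 𝔠)
    (w0 : InfinitePlace L) (hw0 : ∀ w : InfinitePlace L, w (e : L) ≤ w0 (e : L))
    {C ε G : ℝ} (hC : 0 ≤ C) (hε : 0 ≤ ε)
    (hL : ∀ (P R S ζ : E), P ≠ 0 → IsUnit ζ → ∀ W : ℝ, 1 ≤ W → ∀ U : Finset E,
      (∀ u ∈ U, ∀ v ∈ U, (nm (u - v) : ℝ) ≤ W) →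
      (∀ u ∈ U, ∃ a : E, P * u ^ 2 + R * u + S = ζ * a ^ 3) →
      (U.card : ℝ) ≤ C * √W * (nm P : ℝ) ^ ε)
    (GG : Finset (𝓞 L)) (hGG : ∀ g ∈ GG, g ∈ 𝔠 ∧ (∀ w : InfinitePlace L, w (g : L) ≤ G) ∧
      (∃ b : E, b ≠ 0 ∧ Ideal.span {g * d.sg g} = Ideal.span {d.om (A * b ^ 3)})) :
    (GG.card : ℝ) ≤ (1 + 12 * ((2 * w0 (e : L) * G) ^ 2 / (nm A * √(nm d.α : ℝ)))) *
      ((EB 1).card * (C * √(1 + (2 * G / w0 (e : L)) ^ 2) * R ^ ε)) := by
  have hA0 : (0 : ℝ) < nm A := by exact_mod_cast nm_pos hA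
  have hα0 : (0 : ℝ) < √(nm d.α : ℝ) := Real.sqrt_pos.2 (by exact_mod_cast nm_pos (α_ne d))
  obtain ⟨n, hn⟩ : ∃ n, n = ⌊(2 * w0 (e : L) * G) ^ 2 / (nm A * √(nm d.α : ℝ))⌋₊ := ⟨_, rfl⟩
  have h1 : ∀ g ∈ GG, ∃ v : E, e * d.sg g - d.sg e * g = d.om A * (d.om v * d.s) :=
    fun g hg => exists_v d hc he (hGG g hg).1
  choose! v hv using h1
  have h2 : ∀ g ∈ GG, v g ∈ insert 0 (EB n) := by
    intro g hg
    by_cases h0 : v g = 0
    · rw [h0]; exact mem_insert_self _ _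
    · refine mem_insert_of_mem (mem_EB.2 ⟨h0, ?_⟩)
      have h3 := v_bound d (hv g hg) hw0 (hGG g hg).2.1
      rw [hn]
      apply Nat.le_floor
      rw [le_div_iff₀ (by positivity)]
      linarith
  have h4 : GG.card = ∑ x ∈ insert 0 (EB n), (GG.filter fun g => v g = x).card :=
    Finset.card_eq_sum_card_fiberwise h2
  have h5 : ∀ x ∈ insert 0 (EB n), (((GG.filter fun g => v g = x).card : ℕ) : ℝ) ≤
      (EB 1).card * (C * √(1 + (2 * G / w0 (e : L)) ^ 2) * R ^ ε) := by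
    intro x _
    refine fiber d hA hc hcN he he0 hmin hR0 hR w0 hC hε hL (d.om A * (d.om x * d.s)) _ ?_
    intro g hg
    rw [mem_filter] at hg
    obtain ⟨b1, b2, b3⟩ := hGG g hg.1
    refine ⟨b1, b2, b3, ?_⟩
    rw [hv g hg.1, hg.2]
  rw [h4]
  push_cast
  refine (Finset.sum_le_sum h5).trans ?_
  rw [Finset.sum_const, nsmul_eq_mul]
  have h6 : ((insert (0 : E) (EB n)).card : ℝ) ≤
      1 + 12 * ((2 * w0 (e : L) * G) ^ 2 / (nm A * √(nm d.α : ℝ))) := by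
    have h7 : (insert (0 : E) (EB n)).card ≤ 12 * n + 1 :=
      (Finset.card_insert_le _ _).trans (Nat.add_le_add_right (card_EB n) 1)
    have h8 : ((insert (0 : E) (EB n)).card : ℝ) ≤ 12 * n + 1 := by exact_mod_cast h7
    have h9 : (n : ℝ) ≤ (2 * w0 (e : L) * G) ^ 2 / (nm A * √(nm d.α : ℝ)) := by
      rw [hn]; exact Nat.floor_le (by positivity)
    linarith
  gcongr

end Pool.Agent.K1H30.Q3
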